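import Mathlib

/-! Independent domination against dominating sets that contain the leaves. -/

open Finset

namespace Pool.Agent.Lib.MP_2d208d_co.Leaves

variable {V : Type} [DecidableEq V] (G : SimpleGraph V) [DecidableRel G.Adj]

/-- the number of neighbours of `v` in `S` -/
def dg (S : Finset V) (v : V) : ℕ := (S.filter (G.Adj v)).card

theorem dg_split {U R : Finset V} (h : R ⊆ U) (v : V) :
    dg G U v = dg G (U \ R) v + dg G R v := by
  unfold dg
  rw [← card_union_of_disjoint (disjoint_filter_filter sdiff_disjoint), ← filter_union,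
    sdiff_union_of_subset h]

theorem dg_swap (A B : Finset V) : ∑ v ∈ A, dg G B v = ∑ v ∈ B, dg G A v := by
  unfold dg
  simp only [card_filter]
  rw [sum_comm]
  refine sum_congr rfl fun b _ => sum_congr rfl fun a _ => ?_
  simp only [G.adj_comm a b]

theorem dg_pos {S : Finset V} {v u : V} (hu : u ∈ S) (h : G.Adj v u) : 1 ≤ dg G S v :=
  card_pos.2 ⟨u, mem_filter.2 ⟨hu, h⟩⟩

theorem exists_of_dg {S : Finset V} {v : V} (h : 1 ≤ dg G S v) : ∃ u ∈ S, G.Adj v u := by
  obtain ⟨u, hu⟩ := card_pos.1 h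
  exact ⟨u, (mem_filter.1 hu).1, (mem_filter.1 hu).2⟩

theorem star_sum (U : Finset V) (x : V) :
    2 * (insert x (U.filter (G.Adj x))).card ≤
      ∑ v ∈ insert x (U.filter (G.Adj x)), dg G (insert x (U.filter (G.Adj x))) v + 2 := by
  have hx : x ∉ U.filter (G.Adj x) := fun h => G.irrefl (mem_filter.1 h).2
  rw [sum_insert hx, card_insert_of_notMem hx]
  have h1 : (U.filter (G.Adj x)).card ≤ dg G (insert x (U.filter (G.Adj x))) x :=
    card_le_card fun v hv => mem_filter.2 ⟨mem_insert_of_mem hv, (mem_filter.1 hv).2⟩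
  have h2 : (U.filter (G.Adj x)).card ≤
      ∑ v ∈ U.filter (G.Adj x), dg G (insert x (U.filter (G.Adj x))) v := by
    rw [card_eq_sum_ones]
    exact sum_le_sum fun v hv => dg_pos G (mem_insert_self _ _) (mem_filter.1 hv).2.symm
  omega

theorem main (k : ℕ) : ∀ U D Y : Finset V, U.card ≤ k → D ⊆ U → Y ⊆ U →
    (∀ S ⊆ U, S.Nonempty → (∀ a ∈ S, ∀ b ∈ U, G.Adj a b → b ∈ S) → ∃ y ∈ S, y ∈ Y) →
    (∀ v ∈ U, v ∉ D → v ∉ Y → 2 ≤ dg G U v ∧ ∃ u ∈ D, G.Adj v u) →
    (∀ v ∈ Y, v ∉ D → 1 ≤ dg G U v) →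
    ∃ I ⊆ U, (∀ a ∈ I, ∀ b ∈ I, ¬ G.Adj a b) ∧ (∀ v ∈ U, v ∉ I → ∃ u ∈ I, G.Adj v u) ∧
      2 * (I.card + U.card) ≤ 2 * (D.card + Y.card) + ∑ v ∈ U, dg G U v := by
  induction k with
  | zero =>
    intro U D Y hU _ _ _ _ _
    have : U = ∅ := card_eq_zero.1 (by omega)
    subst this
    exact ⟨∅, Subset.refl _, by simp, by simp, by simp⟩
  | succ k ih =>
    intro U D Y hU hD hY hc h1 h2
    rcases U.eq_empty_or_nonempty with rfl | hne
    · exact ⟨∅, Subset.refl _, by simp, by simp, by simp⟩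
    obtain ⟨y, hyU, hyY⟩ := hc U (Subset.refl _) hne fun _ _ b hb _ => hb
    -- the vertex to be chosen
    obtain ⟨x, hxU, hgain⟩ : ∃ x ∈ U, 2 ≤ (D ∩ insert x (U.filter (G.Adj x))).card +
        (Y ∩ insert x (U.filter (G.Adj x))).card := by
      by_cases hyD : y ∈ D
      · refine ⟨y, hyU, ?_⟩
        have a1 : 0 < (D ∩ insert y (U.filter (G.Adj y))).card :=
          card_pos.2 ⟨y, mem_inter.2 ⟨hyD, mem_insert_self _ _⟩⟩
        have a2 : 0 < (Y ∩ insert y (U.filter (G.Adj y))).card :=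
          card_pos.2 ⟨y, mem_inter.2 ⟨hyY, mem_insert_self _ _⟩⟩
        omega
      · obtain ⟨x, hxU, hxy⟩ := exists_of_dg G (h2 y hyY hyD)
        refine ⟨x, hxU, ?_⟩
        have hyR : y ∈ insert x (U.filter (G.Adj x)) :=
          mem_insert_of_mem (mem_filter.2 ⟨hyU, hxy.symm⟩)
        have a2 : 0 < (Y ∩ insert x (U.filter (G.Adj x))).card :=
          card_pos.2 ⟨y, mem_inter.2 ⟨hyY, hyR⟩⟩
        by_cases hxD : x ∈ D
        · have a1 : 0 < (D ∩ insert x (U.filter (G.Adj x))).card :=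
            card_pos.2 ⟨x, mem_inter.2 ⟨hxD, mem_insert_self _ _⟩⟩
          omega
        by_cases hxY : x ∈ Y
        · have a3 : 1 < (Y ∩ insert x (U.filter (G.Adj x))).card :=
            one_lt_card.2 ⟨y, mem_inter.2 ⟨hyY, hyR⟩, x,
              mem_inter.2 ⟨hxY, mem_insert_self _ _⟩, hxy.ne⟩
          omega
        · obtain ⟨u, huD, hu⟩ := (h1 x hxU hxD hxY).2
          have a1 : 0 < (D ∩ insert x (U.filter (G.Adj x))).card :=
            card_pos.2 ⟨u, mem_inter.2 ⟨huD, mem_insert_of_mem (mem_filter.2 ⟨hD huD, hu⟩)⟩⟩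
          omega
    have hstar := star_sum G U x
    set R := insert x (U.filter (G.Adj x)) with hR
    have hRU : R ⊆ U := insert_subset hxU (filter_subset _ _)
    have hxR : x ∈ R := mem_insert_self _ _
    set A := (U \ R).filter (fun v => v ∉ Y ∧ 1 ≤ dg G R v) with hA
    set Z := (U \ R).filter (fun v => v ∉ D ∧ dg G (U \ R) v = 0) with hZ
    have hcard : (U \ R).card + R.card = U.card := card_sdiff_add_card_eq_card hRU
    have hRpos : 0 < R.card := card_pos.2 ⟨x, hxR⟩
    obtain ⟨I, hIU, hI1, hI2, hI3⟩ := ih (U \ R) (D \ R ∪ Z) (Y \ R ∪ A) (by omega)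
      (union_subset (sdiff_subset_sdiff hD (Subset.refl _)) (filter_subset _ _))
      (union_subset (sdiff_subset_sdiff hY (Subset.refl _)) (filter_subset _ _))
      (by
        intro S hS hSne hcl
        by_cases hex : ∃ a ∈ S, 1 ≤ dg G R a
        · obtain ⟨a, haS, ha⟩ := hex
          refine ⟨a, haS, ?_⟩
          by_cases haY : a ∈ Y
          · exact mem_union_left _ (mem_sdiff.2 ⟨haY, (mem_sdiff.1 (hS haS)).2⟩)
          · exact mem_union_right _ (mem_filter.2 ⟨hS haS, haY, ha⟩)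
        · obtain ⟨z, hzS, hzY⟩ := hc S (hS.trans sdiff_subset) hSne fun a ha b hb hab => by
            by_cases hbR : b ∈ R
            · exact absurd ⟨a, ha, dg_pos G hbR hab⟩ hex
            · exact hcl a ha b (mem_sdiff.2 ⟨hb, hbR⟩) hab
          exact ⟨z, hzS, mem_union_left _ (mem_sdiff.2 ⟨hzY, (mem_sdiff.1 (hS hzS)).2⟩)⟩)
      (by
        intro v hv hvD hvY
        obtain ⟨hvU, hvR⟩ := mem_sdiff.1 hv
        have b1 : v ∉ D := fun h => hvD (mem_union_left _ (mem_sdiff.2 ⟨h, hvR⟩))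
        have b2 : v ∉ Y := fun h => hvY (mem_union_left _ (mem_sdiff.2 ⟨h, hvR⟩))
        have b3 : ¬ 1 ≤ dg G R v := fun h => hvY (mem_union_right _ (mem_filter.2 ⟨hv, b2, h⟩))
        obtain ⟨c1, u, huD, hu⟩ := h1 v hvU b1 b2
        have c2 := dg_split G hRU v
        refine ⟨by omega, u, mem_union_left _ (mem_sdiff.2 ⟨huD, fun h => b3 (dg_pos G h hu)⟩), hu⟩)
      (by
        intro v hv hvD
        have hvU : v ∈ U \ R := by
          rcases mem_union.1 hv with h | h
          · exact mem_sdiff.2 ⟨hY (mem_sdiff.1 h).1, (mem_sdiff.1 h).2⟩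
          · exact (mem_filter.1 h).1
        have b1 : v ∉ D := fun h => hvD (mem_union_left _ (mem_sdiff.2 ⟨h, (mem_sdiff.1 hvU).2⟩))
        by_contra hz
        exact hvD (mem_union_right _ (mem_filter.2 ⟨hvU, b1, by omega⟩)))
    have hxI : x ∉ I := fun h => (mem_sdiff.1 (hIU h)).2 hxR
    have hnx : ∀ b ∈ I, ¬ G.Adj x b := fun b hb h =>
      (mem_sdiff.1 (hIU hb)).2 (mem_insert_of_mem (mem_filter.2 ⟨(mem_sdiff.1 (hIU hb)).1, h⟩))
    refine ⟨insert x I, insert_subset hxU (hIU.trans sdiff_subset), ?_, ?_, ?_⟩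
    · intro a ha b hb
      rcases mem_insert.1 ha with rfl | ha' <;> rcases mem_insert.1 hb with rfl | hb'
      · exact G.irrefl
      · exact hnx b hb'
      · exact fun h => hnx a ha' h.symm
      · exact hI1 a ha' b hb'
    · intro v hv hvI
      by_cases hvR : v ∈ R
      · rcases mem_insert.1 hvR with rfl | h
        · exact absurd (mem_insert_self _ _) hvI
        · exact ⟨x, mem_insert_self _ _, (mem_filter.1 h).2.symm⟩
      · obtain ⟨u, hu, h⟩ := hI2 v (mem_sdiff.2 ⟨hv, hvR⟩) fun h => hvI (mem_insert_of_mem h)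
        exact ⟨u, mem_insert_of_mem hu, h⟩
    · have e1 : ∑ v ∈ U, dg G U v = ∑ v ∈ U \ R, dg G (U \ R) v + ∑ v ∈ U \ R, dg G R v +
          (∑ v ∈ R, dg G (U \ R) v + ∑ v ∈ R, dg G R v) := by
        rw [← sum_add_distrib, ← sum_add_distrib, ← sum_sdiff hRU]
        congr 1 <;> exact sum_congr rfl fun v _ => dg_split G hRU v
      have e2 := dg_swap G R (U \ R)
      have e3 : A.card + Z.card ≤ ∑ v ∈ U \ R, dg G R v := by
        rw [hA, hZ, card_filter, card_filter, ← sum_add_distrib]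
        refine sum_le_sum fun v hv => ?_
        have c2 := dg_split G hRU v
        have hvU := (mem_sdiff.1 hv).1
        by_cases d1 : v ∉ D ∧ dg G (U \ R) v = 0
        · by_cases hvY : v ∈ Y
          · have := h2 v hvY d1.1
            rw [if_pos d1, if_neg (fun h => h.1 hvY)]
            omega
          · have := (h1 v hvU d1.1 hvY).1
            rw [if_pos d1]
            split_ifs <;> omega
        · rw [if_neg d1]
          split_ifs with h
          · omega
          · omega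
      have e4 : (D \ R ∪ Z).card ≤ (D \ R).card + Z.card := card_union_le _ _
      have e5 : (Y \ R ∪ A).card ≤ (Y \ R).card + A.card := card_union_le _ _
      have e6 := card_sdiff_add_card_inter D R
      have e7 := card_sdiff_add_card_inter Y R
      rw [card_insert_of_notMem hxI]
      omega

end Pool.Agent.Lib.MP_2d208d_co.Leaves
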