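import Pool.Agent.Lib.MP_1d5e93_al.Walk

set_option autoImplicit false

namespace Pool.Agent.Lib.MP_2d208d_co.Ptol

open SimpleGraph
open Pool.Agent.Lib.MP_1d5e93_al (PEO)

variable {V : Type} {G : SimpleGraph V} {ρ : V → ℕ}

theorem greedy [Finite V] (G : SimpleGraph V) (ρ : V → ℕ) (A : V → Prop) :
    ∃ I : V → Prop, ∀ v, I v ↔ (A v ∧ ∀ u, ρ v < ρ u → G.Adj u v → ¬ I u) := by
  have hwf : WellFounded (fun u v : V => ρ v < ρ u) := by
    haveI : IsTrans V (fun u v : V => ρ v < ρ u) := ⟨fun a b c h1 h2 => lt_trans h2 h1⟩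
    haveI : Std.Irrefl (fun u v : V => ρ v < ρ u) := ⟨fun a => lt_irrefl _⟩
    exact Finite.wellFounded_of_trans_of_irrefl _
  refine ⟨hwf.fix (fun v ih => A v ∧ ∀ u (h : ρ v < ρ u), G.Adj u v → ¬ ih u h), fun v => ?_⟩
  rw [hwf.fix_eq]

theorem core [Fintype V] [DecidableEq V] (hp : PEO G ρ)
    (hgem : ¬ ∃ a b c d e, G.Adj a b ∧ G.Adj b c ∧ G.Adj c d ∧ ¬ G.Adj a c ∧ ¬ G.Adj b d ∧
      ¬ G.Adj a d ∧ G.Adj e a ∧ G.Adj e b ∧ G.Adj e c ∧ G.Adj e d)
    (D : Finset V) (p : V → V)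
    (hD : ∀ v, v ∉ D → p v ∈ D ∧ G.Adj (p v) v ∧
      ((∀ y, G.Adj (p v) y → y ≠ v → G.Adj v y) ∨ ∃ w, G.Adj v w ∧ w ≠ p v ∧ ¬ G.Adj (p v) w)) :
    ∃ I : Finset V, G.IsIndepSet (I : Set V) ∧ (∀ v, v ∉ I → ∃ u ∈ I, G.Adj u v) ∧
      I.card ≤ D.card := by
  classical
  obtain ⟨I, hI⟩ := greedy G ρ (fun v => v ∈ D ∨ ρ (p v) < ρ v)
  have tri : ∀ a b, G.Adj a b → ρ a < ρ b ∨ ρ b < ρ a := fun a b h =>
    Nat.lt_or_gt_of_ne (fun e => h.ne (hp.inj e))
  have ind : ∀ a b, I a → I b → ¬ G.Adj a b := by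
    intro a b ha hb h
    rcases tri a b h with l | l
    · exact ((hI a).1 ha).2 b l h.symm hb
    · exact ((hI b).1 hb).2 a l h ha
  have key : ∀ a, (a ∈ D ∨ ρ (p a) < ρ a) → ¬ I a → ∃ x, I x ∧ G.Adj x a ∧ ρ a < ρ x := by
    intro a ha hn
    by_contra hc
    exact hn ((hI a).2 ⟨ha, fun u l h hu => hc ⟨u, hu, h, l⟩⟩)
  have low : ∀ v w, (w ∈ D ∨ ρ (p w) < ρ w) → G.Adj v w → ρ w < ρ v → ¬ I v →
      ∃ x, I x ∧ G.Adj x v := by
    intro v w hw h l hv
    by_cases hw' : I w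
    · exact ⟨w, hw', h.symm⟩
    · obtain ⟨x, hx, h1, h2⟩ := key w hw hw'
      exact ⟨x, hx, hp.cl w x v h1.symm h.symm h2 l (fun e => hv (e ▸ hx))⟩
  have dom : ∀ v, ¬ I v → ∃ x, I x ∧ G.Adj x v := by
    intro v hv
    by_cases hA : v ∈ D ∨ ρ (p v) < ρ v
    · obtain ⟨x, hx, h1, _⟩ := key v hA hv
      exact ⟨x, hx, h1⟩
    by_contra hno
    have hno' : ∀ x, I x → ¬ G.Adj x v := fun x hx h => hno ⟨x, hx, h⟩
    have hvD : v ∉ D := fun h => hA (Or.inl h)
    obtain ⟨hd, hdv, hH⟩ := hD v hvD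
    have lvd : ρ v < ρ (p v) := by
      rcases tri _ _ hdv with l | l
      · exact absurd (Or.inr l) hA
      · exact l
    have hdI : ¬ I (p v) := fun h => hno' _ h hdv
    obtain ⟨x, hx, hxd, ldx⟩ := key (p v) (Or.inl hd) hdI
    rcases hH with hH | ⟨w, hvw, hwd, hdw⟩
    · exact hno' x hx (hH x hxd.symm (fun e => hv (e ▸ hx))).symm
    have lwv : ρ w < ρ v := by
      rcases tri _ _ hvw with l | l
      · exact absurd (hp.cl v (p v) w hdv.symm hvw lvd l hwd.symm) hdw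
      · exact l
    have hwA : ¬ (w ∈ D ∨ ρ (p w) < ρ w) := fun h => hno (low v w h hvw lwv hv)
    have hwD : w ∉ D := fun h => hwA (Or.inl h)
    obtain ⟨he, hew, _⟩ := hD w hwD
    have lwe : ρ w < ρ (p w) := by
      rcases tri _ _ hew with l | l
      · exact absurd (Or.inr l) hwA
      · exact l
    have hve : G.Adj v (p w) :=
      hp.cl w v (p w) hvw.symm hew.symm lwv lwe (fun e => hvD (e ▸ he))
    have hde' : p v ≠ p w := fun e => hdw (e ▸ hew)
    have lve : ρ v < ρ (p w) := by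
      rcases tri _ _ hve with l | l
      · exact l
      · exact absurd (low v (p w) (Or.inl he) hve l hv) hno
    have hde : G.Adj (p v) (p w) := hp.cl v _ _ hdv.symm hve lvd lve hde'
    have nw : ∀ y, I y → ρ w < ρ y → ¬ G.Adj y w := fun y hy l h =>
      hno' y hy (hp.cl w y v h.symm hvw.symm l lwv (fun e => hv (e ▸ hy)))
    have gem : ∀ y, I y → ρ w < ρ y → G.Adj y (p v) → ¬ G.Adj (p w) y := fun y hy l h h' =>
      hgem ⟨y, p v, v, w, p w, h, hdv, hvw, hno' y hy, hdw, nw y hy l, h', hde.symm, hve.symm, hew⟩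
    have led : ρ (p w) < ρ (p v) := by
      rcases tri _ _ hde with l | l
      · refine absurd (hp.cl (p v) (p w) x hde hxd.symm l ldx ?_) (gem x hx (by omega) hxd)
        intro e
        exact hno' x hx (e ▸ hve.symm)
      · exact l
    have heI : ¬ I (p w) := fun h => hno' _ h hve.symm
    obtain ⟨y, hy, hye, ley⟩ := key (p w) (Or.inl he) heI
    exact gem y hy (by omega)
      (hp.cl (p w) y (p v) hye.symm hde.symm ley led (fun e => hdI (e ▸ hy))) hye.symm
  refine ⟨Finset.univ.filter I, ?_, ?_, ?_⟩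
  · intro a ha b hb _
    simp only [Finset.coe_filter, Finset.mem_univ, true_and] at ha hb
    exact ind a b ha hb
  · intro v hv
    simp only [Finset.mem_filter, Finset.mem_univ, true_and] at hv ⊢
    exact dom v hv
  · refine Finset.card_le_card_of_injOn (fun v => if v ∈ D then v else p v) ?_ ?_
    · intro v _
      by_cases h : v ∈ D
      · simp [h]
      · simp [h, (hD v h).1]
    · intro a ha b hb e
      simp only [Finset.coe_filter, Finset.mem_univ, true_and] at ha hb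
      have ha' : I a := ha
      have hb' : I b := hb
      by_cases h1 : a ∈ D <;> by_cases h2 : b ∈ D <;> simp only [h1, h2, if_true, if_false] at e
      · exact e
      · exact absurd (e ▸ (hD b h2).2.1) (ind a b ha' hb')
      · exact absurd (e ▸ (hD a h1).2.1) (ind b a hb' ha')
      · by_contra hne
        have la := ((hI a).1 ha').1.resolve_left h1
        have lb := ((hI b).1 hb').1.resolve_left h2
        exact ind a b ha' hb'
          (hp.cl (p a) a b (hD a h1).2.1 (e ▸ (hD b h2).2.1) la (e ▸ lb) hne)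

theorem twin [Fintype V] [DecidableEq V] [DecidableRel G.Adj] {u v : V} (h : G.Adj u v)
    (hd : G.degree u ≤ G.degree v) :
    (∀ y, G.Adj u y → y ≠ v → G.Adj v y) ∨ ∃ w, G.Adj v w ∧ w ≠ u ∧ ¬ G.Adj u w := by
  by_cases hw : ∃ w, G.Adj v w ∧ w ≠ u ∧ ¬ G.Adj u w
  · exact Or.inr hw
  left
  have hsub : (G.neighborFinset v).erase u ⊆ (G.neighborFinset u).erase v := by
    intro w hw'
    simp only [Finset.mem_erase, mem_neighborFinset] at hw' ⊢
    refine ⟨hw'.2.ne', ?_⟩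
    by_contra hn
    exact hw ⟨w, hw'.2, hw'.1, hn⟩
  have heq := Finset.eq_of_subset_of_card_le hsub (by
    rw [Finset.card_erase_of_mem (by simpa using h), Finset.card_erase_of_mem (by simpa using h.symm),
      card_neighborFinset_eq_degree, card_neighborFinset_eq_degree]
    omega)
  intro y hy hyv
  have : y ∈ (G.neighborFinset v).erase u := by
    rw [heq]; simp [hy, hyv]
  simp only [Finset.mem_erase, mem_neighborFinset] at this
  exact this.2

end Pool.Agent.Lib.MP_2d208d_co.Ptol
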